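import Mathlib

/-! The path of a uniform morphism of length `305` over the alphabet `-1, 0, 1`. -/

set_option autoImplicit false

namespace Pool.Agent.Helper69.Tern

/-- length of the images -/
def L : ℕ := 305
/-- end point of the path -/
def d : ℕ := 53
/-- place where the image of `0` changes from the path to its negative -/
def t : ℕ := 128
/-- the heights of the path, as digits in base `256` -/
def hN : ℕ := 17343353021612103257246773994780051946887254982094173351249180978493132905443132203180704618585100192039983609436141982837521205165374031087218701212131799017524234593159446707800276700760238786499316888497342962131783829023682869190208645130022158549311114684604747627927855915954749546583095901088502970917876266050216965926547904735740275378493399529135642652057491445703999342822984882076170363741569372742790994788668892436477002567210948068068187144418282662324441132135981599653201827364650662590630631007470458660124041397781098499116930075730533436481051026451433460104760210214767336123655540973145864966434390133256399266034211220092501780053780050298618494836847334492781889383898110256378750621262623719234156377234850513152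

/-- the height of the path after `r` steps -/
def H (r : ℕ) : ℕ := (hN >>> (8 * r)) % 256

/-! ### Finite checks -/

def chkStep : Bool := (List.range 305).all fun i =>
  Nat.ble (H (i + 1)) (H i + 1) && Nat.ble (H i) (H (i + 1) + 1)

def chkBd : Bool := (List.range 305).all fun i =>
  (Nat.beq i 0 || Nat.blt 0 (H i)) && Nat.blt (H i) 53

/-- the class of the other path -/
def cb (r : ℕ) : ℕ := (53 - H r) % 53

/-- membership of a class -/
def isC (r s : ℕ) : Bool := Nat.beq s (H r) || Nat.beq s (cb r)

/-- the next term of the progression -/
def nr (r0 r1 : ℕ) : ℕ := (2 * r1 + 305 - r0) % 305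
/-- the next term of the progression -/
def ns (s0 s1 : ℕ) : ℕ := (2 * s1 + 53 - s0) % 53

def chk1 (r0 s0 r1 s1 : ℕ) : Bool :=
  !(isC (nr r0 r1) (ns s0 s1) && isC (nr r1 (nr r0 r1)) (ns s1 (ns s0 s1))) ||
  (Nat.beq r0 r1 && Nat.beq s0 s1)

def chkAP : Bool := (List.range 305).all fun r0 => (List.range 305).all fun r1 =>
  chk1 r0 (H r0) r1 (H r1) && chk1 r0 (H r0) r1 (cb r1) &&
  chk1 r0 (cb r0) r1 (H r1) && chk1 r0 (cb r0) r1 (cb r1)

lemma chkStep_true : chkStep = true := by decide +kernel
lemma chkBd_true : chkBd = true := by decide +kernel
lemma chkAP_true : chkAP = true := by decide +kernel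
lemma H_zero : H 0 = 0 := by decide +kernel
lemma H_one : H 1 = 1 := by decide +kernel
lemma H_L : H 305 = 53 := by decide +kernel
lemma H_t : 2 * H 128 + 1 = 53 ∧ 2 * H (128 + 1) = 53 + 1 := by decide +kernel

end Pool.Agent.Helper69.Tern
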