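import Mathlib
import Pool.Agent.Helper69.CubeReduction
import Pool.Agent.Helper69.Tern.Data

/-! An infinite word over `{0, 1, 2}` without additive cubes.

The word is the fixed point of a uniform morphism of length `305` with the following structure.
Write the letters as `-1, 0, 1`.  There is a path `H` of length `305` with steps `-1, 0, 1` from
height `0` to height `53` that stays strictly between these heights.  The image of `1` follows the
path, the image of `-1` follows the negative of the path, and the image of `0` follows the path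
until the place `128`, has the letter `0` there, and then follows the negative.  Hence every prefix
sum of the fixed point is, modulo `53`, the height of one of the two paths, and the set of all
these classes (together with the position modulo `305`) has no nontrivial arithmetic progression
of length four. -/

set_option autoImplicit false

namespace Pool.Agent.Helper69.Tern

open Finset

lemma isC_iff {r s : ℕ} : isC r s = true ↔ s = H r ∨ s = cb r := by
  rw [isC]
  simp only [Bool.or_eq_true, Nat.beq_eq]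

lemma chk1_spec {r0 s0 r1 s1 : ℕ} (h : chk1 r0 s0 r1 s1 = true)
    (h2 : isC (nr r0 r1) (ns s0 s1) = true)
    (h3 : isC (nr r1 (nr r0 r1)) (ns s1 (ns s0 s1)) = true) : r0 = r1 ∧ s0 = s1 := by
  rw [chk1, h2, h3] at h
  simpa only [Bool.and_self, Bool.not_true, Bool.false_or, Bool.and_eq_true, Nat.beq_eq] using h

lemma ap_facts {r0 r1 s0 s1 : ℕ} (h0 : r0 < 305) (h1 : r1 < 305) (hs0 : s0 = H r0 ∨ s0 = cb r0)
    (hs1 : s1 = H r1 ∨ s1 = cb r1)
    (h2 : isC (nr r0 r1) (ns s0 s1) = true)
    (h3 : isC (nr r1 (nr r0 r1)) (ns s1 (ns s0 s1)) = true) : r0 = r1 ∧ s0 = s1 := by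
  have h := chkAP_true
  rw [chkAP, List.all_eq_true] at h
  have h4 := h r0 (List.mem_range.2 h0)
  rw [List.all_eq_true] at h4
  have h5 := h4 r1 (List.mem_range.2 h1)
  simp only [Bool.and_eq_true] at h5
  rcases hs0 with rfl | rfl <;> rcases hs1 with rfl | rfl
  · exact chk1_spec h5.1.1.1 h2 h3
  · exact chk1_spec h5.1.1.2 h2 h3
  · exact chk1_spec h5.1.2 h2 h3
  · exact chk1_spec h5.2 h2 h3

/-- the steps of the path -/
def st (i : ℕ) : ℤ := (H (i + 1) : ℤ) - (H i : ℤ)

lemma step_facts {i : ℕ} (hi : i < 305) : -1 ≤ st i ∧ st i ≤ 1 := by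
  have h := chkStep_true
  rw [chkStep, List.all_eq_true] at h
  have h1 := h i (List.mem_range.2 hi)
  simp only [Bool.and_eq_true, Nat.ble_eq] at h1
  rw [st]
  omega

lemma bd_facts {i : ℕ} (hi : i < 305) : (i = 0 ∨ 0 < H i) ∧ H i < 53 := by
  have h := chkBd_true
  rw [chkBd, List.all_eq_true] at h
  have h1 := h i (List.mem_range.2 hi)
  simp only [Bool.and_eq_true, Bool.or_eq_true, Nat.beq_eq, Nat.blt_eq] at h1
  exact h1

/-- the `i`-th letter of the image of the letter `x` -/
def img (x : ℤ) (i : ℕ) : ℤ :=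
  if x = 1 then st i else if x = -1 then -st i else if i < 128 then st i else
    if i = 128 then 0 else -st i

lemma img_bd (x : ℤ) {i : ℕ} (hi : i < 305) : -1 ≤ img x i ∧ img x i ≤ 1 := by
  have h1 := step_facts hi
  rw [img]
  split_ifs <;> omega

/-! ### The word -/

/-- the fixed point -/
def u : ℕ → ℤ
  | 0 => 1
  | (n + 1) => img (u ((n + 1) / 305)) ((n + 1) % 305)
termination_by n => n
decreasing_by exact Nat.div_lt_self (Nat.succ_pos n) (by norm_num)

lemma u_eq (n : ℕ) : u n = img (u (n / 305)) (n % 305) := by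
  cases n with
  | zero =>
    simp only [Nat.zero_div, Nat.zero_mod]
    have h0 := H_zero
    have h1 := H_one
    rw [u, img, if_pos rfl, st, h0, h1]
    norm_num
  | succ n => rw [u]

lemma u_bd (n : ℕ) : -1 ≤ u n ∧ u n ≤ 1 := by
  rw [u_eq]
  exact img_bd _ (Nat.mod_lt _ (by norm_num))

/-- prefix sums -/
def T (n : ℕ) : ℤ := ∑ i ∈ range n, u i

lemma T_succ (n : ℕ) : T (n + 1) = T n + u n := by
  rw [T, T, sum_range_succ]

lemma block_one : ∀ r : ℕ, ∑ i ∈ range r, img 1 i = (H r : ℤ) := by
  intro r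
  induction r with
  | zero => rw [H_zero]; simp
  | succ r ih => rw [sum_range_succ, ih, img, if_pos rfl, st]; ring

lemma block_neg : ∀ r : ℕ, ∑ i ∈ range r, img (-1) i = -(H r : ℤ) := by
  intro r
  induction r with
  | zero => rw [H_zero]; simp
  | succ r ih => rw [sum_range_succ, ih, img, if_neg (by norm_num), if_pos rfl, st]; ring

lemma block_zero : ∀ r : ℕ,
    (r ≤ 128 → ∑ i ∈ range r, img 0 i = (H r : ℤ)) ∧
    (128 < r → ∑ i ∈ range r, img 0 i = 53 - (H r : ℤ)) := by
  intro r
  induction r with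
  | zero => refine ⟨fun _ => by rw [H_zero]; simp, fun h => absurd h (by omega)⟩
  | succ r ih =>
    obtain ⟨ih1, ih2⟩ := ih
    have ht1 := H_t.1
    have ht2 := H_t.2
    refine ⟨fun h => ?_, fun h => ?_⟩
    · rw [sum_range_succ, ih1 (by omega), img, if_neg (by norm_num), if_neg (by norm_num),
        if_pos (by omega), st]
      ring
    · rcases Nat.lt_or_ge 128 r with h3 | h3
      · rw [sum_range_succ, ih2 h3, img, if_neg (by norm_num), if_neg (by norm_num),
          if_neg (by omega), if_neg (by omega), st]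
        ring
      · have h4 : r = 128 := by omega
        subst h4
        rw [sum_range_succ, ih1 le_rfl, img, if_neg (by norm_num), if_neg (by norm_num),
          if_neg (by omega), if_pos rfl]
        omega

lemma block_total {x : ℤ} (hx : -1 ≤ x ∧ x ≤ 1) : ∑ i ∈ range 305, img x i = 53 * x := by
  have hL := H_L
  obtain h | h | h : x = -1 ∨ x = 0 ∨ x = 1 := by omega
  · subst h
    rw [block_neg, hL]
    norm_num
  · subst h
    rw [(block_zero 305).2 (by norm_num), hL]
    norm_num
  · subst h
    rw [block_one, hL]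
    norm_num

lemma u_block (q i : ℕ) (hi : i < 305) : u (305 * q + i) = img (u q) i := by
  have h1 : (305 * q + i) / 305 = q := by omega
  have h2 : (305 * q + i) % 305 = i := by omega
  rw [u_eq, h1, h2]

lemma T_mul (q : ℕ) : T (305 * q) = 53 * T q := by
  induction q with
  | zero => simp [T]
  | succ q ih =>
    have h1 : T (305 * (q + 1)) = T (305 * q) + ∑ i ∈ range 305, img (u q) i := by
      have h2 : ∑ i ∈ range 305, u (305 * q + i) = ∑ i ∈ range 305, img (u q) i :=
        sum_congr rfl (fun i hi => u_block q i (mem_range.1 hi))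
      rw [T, T, show 305 * (q + 1) = 305 * q + 305 by ring, sum_range_add, h2]
    rw [h1, ih, block_total (u_bd q), T_succ]
    ring

lemma T_add (q r : ℕ) (hr : r ≤ 305) :
    T (305 * q + r) = 53 * T q + ∑ i ∈ range r, img (u q) i := by
  have h2 : ∑ i ∈ range r, u (305 * q + i) = ∑ i ∈ range r, img (u q) i :=
    sum_congr rfl (fun i hi => u_block q i (by have := mem_range.1 hi; omega))
  rw [← T_mul, T, T, sum_range_add, h2]

/-- every prefix sum is on one of the two paths -/
lemma T_type (n : ℕ) :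
    T n = 53 * T (n / 305) + (H (n % 305) : ℤ) ∨
    (0 < n % 305 ∧ T n = 53 * T (n / 305 + 1) + 53 - (H (n % 305) : ℤ)) := by
  have hr : n % 305 < 305 := Nat.mod_lt _ (by norm_num)
  have h1 := T_add (n / 305) (n % 305) hr.le
  have h3 : T n = T (305 * (n / 305) + n % 305) := by
    congr 1
    omega
  have h4 := T_succ (n / 305)
  obtain h | h | h : u (n / 305) = -1 ∨ u (n / 305) = 0 ∨ u (n / 305) = 1 := by
    have := u_bd (n / 305); omega
  · rw [h, block_neg] at h1
    rw [h] at h4
    rcases Nat.eq_zero_or_pos (n % 305) with h0 | h0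
    · left
      rw [h3, h1, h0, H_zero]
      norm_num
    · right
      refine ⟨h0, ?_⟩
      rw [h3, h1, h4]
      ring
  · rw [h] at h1 h4
    rcases Nat.lt_or_ge 128 (n % 305) with h5 | h5
    · right
      rw [(block_zero _).2 h5] at h1
      refine ⟨by omega, ?_⟩
      rw [h3, h1, h4]
      ring
    · left
      rw [(block_zero _).1 h5] at h1
      rw [h3, h1]
  · left
    rw [h, block_one] at h1
    rw [h3, h1]

/-- the class of a prefix sum -/
def sN (n : ℕ) : ℕ := (T n % 53).toNat

lemma sN_cast (n : ℕ) : (sN n : ℤ) = T n % 53 := by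
  rw [sN]
  exact Int.toNat_of_nonneg (Int.emod_nonneg _ (by norm_num))

lemma T_class (n : ℕ) :
    (T n = 53 * T (n / 305) + (H (n % 305) : ℤ) ∧ sN n = H (n % 305)) ∨
    (0 < n % 305 ∧ T n = 53 * T (n / 305 + 1) + 53 - (H (n % 305) : ℤ) ∧
      sN n = cb (n % 305)) := by
  have hr : n % 305 < 305 := Nat.mod_lt _ (by norm_num)
  have hb := bd_facts hr
  have hs := sN_cast n
  rcases T_type n with h | ⟨h0, h⟩
  · left
    refine ⟨h, ?_⟩
    generalize T (n / 305) = y at h
    omega
  · right
    refine ⟨h0, h, ?_⟩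
    generalize T (n / 305 + 1) = y at h
    rw [cb]
    omega

lemma sN_isC (n : ℕ) : isC (n % 305) (sN n) = true := by
  rw [isC_iff]
  rcases T_class n with h | h
  · exact Or.inl h.2
  · exact Or.inr h.2.2

theorem no_cube : ∀ n p : ℕ, 0 < n →
    ¬ (T p + T (p + 2 * n) = 2 * T (p + n) ∧ T (p + n) + T (p + 3 * n) = 2 * T (p + 2 * n)) := by
  intro n
  induction n using Nat.strong_induction_on with
  | _ n ih =>
    rintro p hn ⟨heq, heq2⟩
    have hc0 := T_class p
    have hc1 := T_class (p + n)
    have hc2 := T_class (p + 2 * n)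
    have hc3 := T_class (p + 3 * n)
    have hs0 := sN_cast p
    have hs1 := sN_cast (p + n)
    have hs2 := sN_cast (p + 2 * n)
    have hs3 := sN_cast (p + 3 * n)
    have hr0 : p % 305 < 305 := Nat.mod_lt _ (by norm_num)
    have hr1 : (p + n) % 305 < 305 := Nat.mod_lt _ (by norm_num)
    have hb0 := bd_facts hr0
    have e1 : nr (p % 305) ((p + n) % 305) = (p + 2 * n) % 305 := by rw [nr]; omega
    have e2 : ns (sN p) (sN (p + n)) = sN (p + 2 * n) := by rw [ns]; omega
    have e3 : nr ((p + n) % 305) ((p + 2 * n) % 305) = (p + 3 * n) % 305 := by rw [nr]; omega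
    have e4 : ns (sN (p + n)) (sN (p + 2 * n)) = sN (p + 3 * n) := by rw [ns]; omega
    have key := ap_facts (r0 := p % 305) (r1 := (p + n) % 305) (s0 := sN p)
      (s1 := sN (p + n)) hr0 hr1
      (by rcases hc0 with h | h; exacts [Or.inl h.2, Or.inr h.2.2])
      (by rcases hc1 with h | h; exacts [Or.inl h.2, Or.inr h.2.2])
      (by rw [e1, e2]; exact sN_isC _)
      (by rw [e1, e2, e3, e4]; exact sN_isC _)
    obtain ⟨k1, k2⟩ := key
    have k3 : (p + 2 * n) % 305 = p % 305 := by omega
    have k4 : sN (p + 2 * n) = sN p := by omega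
    have k5 : (p + 3 * n) % 305 = p % 305 := by omega
    have k6 : sN (p + 3 * n) = sN p := by omega
    obtain ⟨m, hm⟩ : ∃ m, n = 305 * m := ⟨n / 305, by omega⟩
    have q1 : (p + n) / 305 = p / 305 + m := by omega
    have q2 : (p + 2 * n) / 305 = p / 305 + 2 * m := by omega
    have q3 : (p + 3 * n) / 305 = p / 305 + 3 * m := by omega
    have hm0 : 0 < m := by omega
    have hmn : m < n := by omega
    rw [k1.symm, k2.symm, q1] at hc1
    rw [k3, k4, q2] at hc2
    rw [k5, k6, q3] at hc3
    have hcb : 0 < p % 305 → H (p % 305) ≠ cb (p % 305) := by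
      intro h0
      rw [cb]
      omega
    have hsame : (T p = 53 * T (p / 305) + (H (p % 305) : ℤ) ∧
        T (p + n) = 53 * T (p / 305 + m) + (H (p % 305) : ℤ) ∧
        T (p + 2 * n) = 53 * T (p / 305 + 2 * m) + (H (p % 305) : ℤ) ∧
        T (p + 3 * n) = 53 * T (p / 305 + 3 * m) + (H (p % 305) : ℤ)) ∨
        (T p = 53 * T (p / 305 + 1) + 53 - (H (p % 305) : ℤ) ∧
        T (p + n) = 53 * T (p / 305 + m + 1) + 53 - (H (p % 305) : ℤ) ∧
        T (p + 2 * n) = 53 * T (p / 305 + 2 * m + 1) + 53 - (H (p % 305) : ℤ) ∧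
        T (p + 3 * n) = 53 * T (p / 305 + 3 * m + 1) + 53 - (H (p % 305) : ℤ)) := by
      rcases hc0 with ⟨g0, j0⟩ | ⟨z0, g0, j0⟩
      · left
        refine ⟨g0, ?_, ?_, ?_⟩
        · rcases hc1 with ⟨g, j⟩ | ⟨z, g, j⟩
          exacts [g, absurd (j0.symm.trans j) (hcb z)]
        · rcases hc2 with ⟨g, j⟩ | ⟨z, g, j⟩
          exacts [g, absurd (j0.symm.trans j) (hcb z)]
        · rcases hc3 with ⟨g, j⟩ | ⟨z, g, j⟩
          exacts [g, absurd (j0.symm.trans j) (hcb z)]
      · right
        refine ⟨g0, ?_, ?_, ?_⟩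
        · rcases hc1 with ⟨g, j⟩ | ⟨z, g, j⟩
          exacts [absurd (j.symm.trans j0) (hcb z0), g]
        · rcases hc2 with ⟨g, j⟩ | ⟨z, g, j⟩
          exacts [absurd (j.symm.trans j0) (hcb z0), g]
        · rcases hc3 with ⟨g, j⟩ | ⟨z, g, j⟩
          exacts [absurd (j.symm.trans j0) (hcb z0), g]
    rcases hsame with ⟨g0, g1, g2, g3⟩ | ⟨g0, g1, g2, g3⟩
    · refine ih m hmn (p / 305) hm0 ⟨?_, ?_⟩
      · omega
      · omega
    · refine ih m hmn (p / 305 + 1) hm0 ⟨?_, ?_⟩
      · rw [show p / 305 + 1 + 2 * m = p / 305 + 2 * m + 1 by ring,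
          show p / 305 + 1 + m = p / 305 + m + 1 by ring]
        omega
      · rw [show p / 305 + 1 + 2 * m = p / 305 + 2 * m + 1 by ring,
          show p / 305 + 1 + 3 * m = p / 305 + 3 * m + 1 by ring,
          show p / 305 + 1 + m = p / 305 + m + 1 by ring]
        omega

lemma T_add_sum (i n : ℕ) : T (i + n) = T i + ∑ k ∈ range n, u (i + k) := by
  rw [T, T, sum_range_add]

open Pool.Agent.CubeDefs Pool.Agent.Helper69.Cube

lemma cubeFree_u : CubeFree u := by
  intro p n hn
  rintro ⟨h, h'⟩
  have h1 := T_add_sum p n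
  have h2 := T_add_sum (p + n) n
  have h3 := T_add_sum (p + 2 * n) n
  rw [show p + n + n = p + 2 * n by ring] at h2
  rw [show p + 2 * n + n = p + 3 * n by ring] at h3
  apply no_cube n p hn
  constructor
  · linarith
  · linarith

/-- Additive cubes are avoidable over the alphabet `0, 1, 2`. -/
theorem avoidable_ternary : AdditiveCubesAvoidable {0, 1, 2} := by
  have h := cubeFree_affine cubeFree_u 1 1 one_ne_zero
  refine avoidable_of_cubeFree (v := fun n => 1 + 1 * u n) (fun n => ?_) h
  have hb := u_bd n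
  obtain h | h | h : u n = -1 ∨ u n = 0 ∨ u n = 1 := by omega
  · rw [h]; decide
  · rw [h]; decide
  · rw [h]; decide

end Pool.Agent.Helper69.Tern
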